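import Mathlib

/-!
# Schur partitions of finite abelian groups

`χ : G → κ` is a colouring of a finite abelian group whose colour classes form a Schur partition.
`D x` is the number of `g` with `χ g ≠ χ (g x)`.
-/

set_option autoImplicit false

namespace Pool.Agent.Lib.MP_18d74f_co

open Finset

variable {G κ : Type} [CommGroup G] [Fintype G] [DecidableEq G] [DecidableEq κ]

/-- the colour classes of `χ` form a Schur partition (no condition on the class of `1` is needed) -/
structure SP (χ : G → κ) : Prop where
  inv : ∀ x y, χ x = χ y → χ x⁻¹ = χ y⁻¹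
  mul : ∀ a b x y, χ x = χ y →
    (univ.filter (fun g => χ g = a ∧ χ (g⁻¹ * x) = b)).card =
      (univ.filter (fun g => χ g = a ∧ χ (g⁻¹ * y) = b)).card

/-- number of points that see a difference between `1` and `x` -/
def D (χ : G → κ) (x : G) : ℕ := (univ.filter (fun g => χ g ≠ χ (g * x))).card

omit [DecidableEq G] in
lemma D_one (χ : G → κ) : D χ 1 = 0 := by
  simp [D]

omit [DecidableEq G] in
lemma D_mul (χ : G → κ) (x y : G) : D χ (x * y) ≤ D χ x + D χ y := by
  classical
  unfold D
  have h1 : (univ.filter (fun g => χ g ≠ χ (g * y))).card =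
      (univ.filter (fun g => χ (g * x) ≠ χ (g * x * y))).card := by
    symm
    refine Finset.card_bij (fun g _ => g * x) ?_ ?_ ?_
    · intro g hg; simpa using hg
    · intro g _ g' _ h; simpa using h
    · intro g hg
      exact ⟨g * x⁻¹, by simpa using hg, by simp⟩
  rw [h1]
  refine (Finset.card_le_card ?_).trans (Finset.card_union_le _ _)
  intro g hg
  simp only [mem_filter, mem_univ, true_and, mem_union] at hg ⊢
  by_contra h
  push Not at h
  exact hg (h.1.trans (by rw [h.2, mul_assoc]))

omit [DecidableEq G] in
lemma D_congr [Fintype κ] (χ : G → κ) (h : SP χ) (x y : G) (hxy : χ x = χ y) : D χ x = D χ y := by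
  classical
  have key : ∀ z : G, (univ.filter (fun g => χ g = χ (g * z))).card =
      ∑ p ∈ (univ : Finset (κ × κ)).filter (fun p => ∃ k : G, χ k = p.1 ∧ χ k⁻¹ = p.2),
        (univ.filter (fun g => χ g = p.1 ∧ χ (g⁻¹ * z) = p.2)).card := by
    intro z
    have h1 : (univ.filter (fun g => χ g = χ (g * z))).card =
        (univ.filter (fun g => χ g⁻¹ = χ (g⁻¹ * z))).card := by
      refine Finset.card_bij (fun g _ => g⁻¹) ?_ ?_ ?_
      · intro g hg; simpa using hg
      · intro g _ g' _ h; simpa using h
      · intro g hg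
        exact ⟨g⁻¹, by simpa using hg, by simp⟩
    rw [h1, Finset.card_eq_sum_card_fiberwise (f := fun g => (χ g, χ (g⁻¹ * z)))
      (t := (univ : Finset (κ × κ)).filter (fun p => ∃ k : G, χ k = p.1 ∧ χ k⁻¹ = p.2))]
    · refine Finset.sum_congr rfl ?_
      rintro ⟨a, b⟩ hp
      simp only [mem_filter, mem_univ, true_and] at hp
      obtain ⟨k, hk1, hk2⟩ := hp
      congr 1
      ext g
      simp only [mem_filter, mem_univ, true_and, Prod.mk.injEq]
      constructor
      · rintro ⟨_, h3, h4⟩
        exact ⟨h3, h4⟩
      · rintro ⟨h3, h4⟩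
        refine ⟨?_, h3, h4⟩
        rw [h4, ← hk2]
        exact h.inv _ _ (h3.trans hk1.symm)
    · intro g hg
      simp only [Finset.coe_filter, mem_univ, true_and, Set.mem_setOf_eq] at hg ⊢
      exact ⟨g, rfl, hg⟩
  have h2 : ∀ z : G, D χ z + (univ.filter (fun g => χ g = χ (g * z))).card = Fintype.card G := by
    intro z
    unfold D
    rw [add_comm]
    exact Finset.card_filter_add_card_filter_not (s := (univ : Finset G)) (fun g => χ g = χ (g * z))
  have h3 : (univ.filter (fun g => χ g = χ (g * x))).card =
      (univ.filter (fun g => χ g = χ (g * y))).card := by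
    rw [key, key]
    exact Finset.sum_congr rfl (fun p _ => h.mul p.1 p.2 x y hxy)
  have h4 := h2 x
  have h5 := h2 y
  omega

end Pool.Agent.Lib.MP_18d74f_co
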