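import Mathlib
import Pool.Agent.Lib.MP_18d74f_co.SRing

/-!
# Schur's theorem on multipliers
-/

set_option autoImplicit false

namespace Pool.Agent.Lib.MP_18d74f_co

open Finset MonoidAlgebra

variable {G κ : Type} [CommGroup G] [Fintype G] [DecidableEq G] [DecidableEq κ] [Fintype κ]

/-- coefficients constant on the colour classes -/
def CF {R : Type} [Semiring R] (χ : G → κ) (f : MonoidAlgebra R G) : Prop :=
  ∀ x y, χ x = χ y → f.coeff x = f.coeff y

lemma coeff_mul_sum {R : Type} [CommSemiring R] (f g : MonoidAlgebra R G) (x : G) :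
    (f * g).coeff x = ∑ h, f.coeff h * g.coeff (h⁻¹ * x) := by
  rw [MonoidAlgebra.coeff_mul_apply_left, Finsupp.sum_fintype]
  intro i
  simp

omit [DecidableEq G] [DecidableEq κ] [Fintype κ] [Fintype G] in
lemma CF.lift {R : Type} [Semiring R] {χ : G → κ} {f : MonoidAlgebra R G} (h : CF χ f) :
    ∃ F : κ → R, ∀ g, f.coeff g = F (χ g) := by
  classical
  refine ⟨fun a => if hh : ∃ k, χ k = a then f.coeff hh.choose else 0, fun g => ?_⟩
  have hh : ∃ k, χ k = χ g := ⟨g, rfl⟩
  simp only [hh, dif_pos]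
  exact h _ _ hh.choose_spec.symm

lemma CF.mul {R : Type} [CommSemiring R] {χ : G → κ} (hχ : SP χ) {f g : MonoidAlgebra R G}
    (hf : CF χ f) (hg : CF χ g) : CF χ (f * g) := by
  obtain ⟨F, hF⟩ := hf.lift
  obtain ⟨K, hK⟩ := hg.lift
  have key : ∀ z, (f * g).coeff z = ∑ p : κ × κ,
      (univ.filter (fun h => χ h = p.1 ∧ χ (h⁻¹ * z) = p.2)).card • (F p.1 * K p.2) := by
    intro z
    rw [coeff_mul_sum, ← Finset.sum_fiberwise univ (fun h => (χ h, χ (h⁻¹ * z)))]
    refine Finset.sum_congr rfl fun p _ => ?_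
    have : (univ.filter (fun h => (χ h, χ (h⁻¹ * z)) = p)) =
        univ.filter (fun h => χ h = p.1 ∧ χ (h⁻¹ * z) = p.2) := by
      ext h; simp [Prod.ext_iff]
    rw [this, Finset.card_eq_sum_ones, Finset.sum_smul]
    refine Finset.sum_congr rfl fun h hh => ?_
    simp only [mem_filter, mem_univ, true_and] at hh
    rw [hF, hK, hh.1, hh.2, one_smul]
  intro x y hxy
  rw [key, key]
  exact Finset.sum_congr rfl fun p _ => by rw [hχ.mul p.1 p.2 x y hxy]

lemma CF.pow {R : Type} [CommSemiring R] {χ : G → κ} (hχ : SP χ) {f : MonoidAlgebra R G}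
    (hf : CF χ f) (m : ℕ) : CF χ (f ^ (m + 1)) := by
  induction m with
  | zero => simpa using hf
  | succ m ih => rw [pow_succ]; exact ih.mul hχ hf

/-- class sum -/
noncomputable def cls (R : Type) [Semiring R] (χ : G → κ) (a : κ) : MonoidAlgebra R G :=
  ∑ g ∈ univ.filter (fun g => χ g = a), single g (1 : R)

omit [Fintype κ] in
lemma coeff_cls {R : Type} [Semiring R] (χ : G → κ) (a : κ) (x : G) :
    (cls R χ a).coeff x = if χ x = a then 1 else 0 := by
  unfold cls
  simp [Finsupp.single_apply]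

lemma root (χ : G → κ) (hχ : SP χ) (p : ℕ) (hp : p.Prime) (hpn : (Fintype.card G).Coprime p)
    (t s : G) (h : χ (t ^ p) = χ (s ^ p)) : χ t = χ s := by
  have : Fact p.Prime := ⟨hp⟩
  have : CharP (MonoidAlgebra (ZMod p) G) p :=
    charP_of_injective_algebraMap (algebraMap (ZMod p) (MonoidAlgebra (ZMod p) G)).injective p
  have : ExpChar (MonoidAlgebra (ZMod p) G) p := ExpChar.prime hp
  have hinj : Function.Injective (fun x : G => x ^ p) := by
    have := (powCoprime (G := G) (n := p) (by rwa [Nat.card_eq_fintype_card])).injective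
    exact this
  set T := cls (ZMod p) χ (χ t) with hT
  have h1 : CF χ T := by
    intro x y hxy
    rw [hT, coeff_cls, coeff_cls, hxy]
  obtain ⟨m, hm⟩ : ∃ m, p = m + 1 := ⟨p - 1, by have := hp.pos; omega⟩
  have h2 : CF χ (T ^ p) := by
    have := h1.pow hχ m
    rwa [← hm] at this
  have h3 : T ^ p = ∑ g ∈ univ.filter (fun g => χ g = χ t), single (g ^ p) (1 : ZMod p) := by
    rw [hT, cls, sum_pow_char]
    simp [single_pow]
  have h4 : ∀ x : G, (T ^ p).coeff (x ^ p) = if χ x = χ t then 1 else 0 := by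
    intro x
    rw [h3]
    have : ∀ g : G, (g ^ p = x ^ p) ↔ g = x := fun g => hinj.eq_iff
    simp [Finsupp.single_apply, this]
  have h5 := h2 _ _ h
  rw [h4, h4, if_pos rfl] at h5
  by_contra hne
  rw [if_neg (fun h => hne h.symm)] at h5
  exact one_ne_zero h5

lemma root_coprime (χ : G → κ) (hχ : SP χ) (m : ℕ) (hm : (Fintype.card G).Coprime m) (hm0 : m ≠ 0)
    (t s : G) (h : χ (t ^ m) = χ (s ^ m)) : χ t = χ s := by
  induction m using Nat.recOnMul generalizing t s with
  | zero => exact absurd rfl hm0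
  | one => simpa using h
  | prime p hp => exact root χ hχ p hp hm t s h
  | mul a b iha ihb =>
    have ha : a ≠ 0 := fun h => hm0 (by simp [h])
    have hb : b ≠ 0 := fun h => hm0 (by simp [h])
    have h1 := Nat.Coprime.coprime_mul_right_right hm
    have h2 := Nat.Coprime.coprime_mul_left_right hm
    refine iha h1 ha t s (ihb h2 hb _ _ ?_)
    rw [← pow_mul, ← pow_mul]; exact h

lemma pow_congr (χ : G → κ) (hχ : SP χ) (m : ℕ) (hm : (Fintype.card G).Coprime m) (hm0 : m ≠ 0)
    (t s : G) (h : χ t = χ s) : χ (t ^ m) = χ (s ^ m) := by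
  have hn : 0 < (Fintype.card G).totient := Nat.totient_pos.2 Fintype.card_pos
  have h1 : ∀ x : G, (x ^ m) ^ (m ^ ((Fintype.card G).totient - 1)) = x := by
    intro x
    rw [← pow_mul, ← pow_succ', Nat.sub_add_cancel hn]
    have := pow_eq_pow_of_modEq (x := x) (Nat.ModEq.pow_totient hm.symm) pow_card_eq_one
    simpa using this
  refine root_coprime χ hχ (m ^ ((Fintype.card G).totient - 1)) (Nat.Coprime.pow_right _ hm)
    (pow_ne_zero _ hm0) _ _ ?_
  rw [h1, h1]; exact h

lemma D_pow (χ : G → κ) (hχ : SP χ) (m : ℕ) (hm : (Fintype.card G).Coprime m) (hm0 : m ≠ 0)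
    (x : G) : D χ (x ^ m) = D χ x := by
  unfold D
  symm
  have hb := (powCoprime (G := G) (n := m) (by rwa [Nat.card_eq_fintype_card])).bijective
  refine Finset.card_bij (fun g _ => g ^ m) ?_ ?_ ?_
  · intro g hg
    simp only [mem_filter, mem_univ, true_and] at hg ⊢
    rw [← mul_pow]
    exact fun h => hg (root_coprime χ hχ m hm hm0 _ _ h)
  · intro g _ g' _ h
    exact hb.1 h
  · intro g hg
    obtain ⟨h, rfl⟩ := hb.2 g
    refine ⟨h, ?_, rfl⟩
    simp only [mem_filter, mem_univ, true_and] at hg ⊢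
    intro h'
    apply hg
    have := pow_congr χ hχ m hm hm0 _ _ h'
    rw [mul_pow] at this
    exact this

end Pool.Agent.Lib.MP_18d74f_co
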