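import Mathlib

/-!
# Residues modulo `n` as sums of residues coprime to `n`
-/

set_option autoImplicit false

namespace Pool.Agent.Lib.MP_18d74f_co

open Finset

/-- for `a` even there are `u`, `v` coprime to `n` with `u + v ≡ a` modulo `n` -/
lemma two_units (n a : ℕ) (hn : n ≠ 0) (ha : Even a) :
    ∃ u v : ℕ, n.Coprime u ∧ n.Coprime v ∧ u ≠ 0 ∧ v ≠ 0 ∧ u + v ≡ a [MOD n] := by
  set P1 := ∏ p ∈ n.primeFactors.filter (fun p => ¬ p ∣ a), p with hP1
  set P2 := ∏ p ∈ n.primeFactors.filter (fun p => p ∣ a), p with hP2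
  have hcop : P1.Coprime P2 := by
    rw [hP1, hP2]
    refine Nat.Coprime.prod_left fun p hp => Nat.Coprime.prod_right fun q hq => ?_
    rw [mem_filter] at hp hq
    rw [Nat.coprime_primes (Nat.prime_of_mem_primeFactors hp.1) (Nat.prime_of_mem_primeFactors hq.1)]
    rintro rfl
    exact hp.2 hq.2
  obtain ⟨u, hu1, hu2⟩ := Nat.chineseRemainder hcop (2 * a) 1
  have hmod1 : ∀ p, p.Prime → p ∣ n → ¬ p ∣ a → u ≡ 2 * a [MOD p] := by
    intro p hp hpn hpa
    refine hu1.of_dvd (Finset.dvd_prod_of_mem _ ?_)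
    rw [mem_filter]
    exact ⟨Nat.mem_primeFactors.2 ⟨hp, hpn, hn⟩, hpa⟩
  have hmod2 : ∀ p, p.Prime → p ∣ n → p ∣ a → u ≡ 1 [MOD p] := by
    intro p hp hpn hpa
    refine hu2.of_dvd (Finset.dvd_prod_of_mem _ ?_)
    rw [mem_filter]
    exact ⟨Nat.mem_primeFactors.2 ⟨hp, hpn, hn⟩, hpa⟩
  have hn1 : 1 ≤ n := Nat.one_le_iff_ne_zero.2 hn
  -- use `u' = u + n`, `v = a + n + (n - 1) u`, both nonzero
  refine ⟨u + n, a + n + (n - 1) * u, ?_, ?_, by omega, by omega, ?_⟩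
  · rw [Nat.Coprime, Nat.coprime_iff_gcd_eq_one.symm, Nat.coprime_iff_gcd_eq_one]
    by_contra hg
    obtain ⟨p, hp, hpd⟩ := Nat.exists_prime_and_dvd hg
    have hpn : p ∣ n := hpd.trans (Nat.gcd_dvd_left _ _)
    have hpu : p ∣ u := (Nat.dvd_add_left hpn).1 (hpd.trans (Nat.gcd_dvd_right _ _))
    by_cases hpa : p ∣ a
    · have h1 := (hmod2 p hp hpn hpa).symm.trans ((Nat.modEq_zero_iff_dvd).2 hpu)
      have h2 := (Nat.modEq_zero_iff_dvd).1 h1
      exact hp.one_lt.ne' (Nat.dvd_one.1 h2)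
    · have h1 := (hmod1 p hp hpn hpa).symm.trans ((Nat.modEq_zero_iff_dvd).2 hpu)
      have h2 := (Nat.modEq_zero_iff_dvd).1 h1
      rcases (hp.dvd_mul).1 h2 with h3 | h3
      · have : p = 2 := (Nat.prime_dvd_prime_iff_eq hp Nat.prime_two).1 h3
        exact hpa (this ▸ ha.two_dvd)
      · exact hpa h3
  · rw [Nat.Coprime, Nat.coprime_iff_gcd_eq_one.symm, Nat.coprime_iff_gcd_eq_one]
    by_contra hg
    obtain ⟨p, hp, hpd⟩ := Nat.exists_prime_and_dvd hg
    have hpn : p ∣ n := hpd.trans (Nat.gcd_dvd_left _ _)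
    have hpv : p ∣ a + n + (n - 1) * u := hpd.trans (Nat.gcd_dvd_right _ _)
    -- p ∣ v, v + u = a + n + n u, so p ∣ ... u ≡ a
    have h0 : a + n + (n - 1) * u + u = a + n * (1 + u) := by
      obtain ⟨m, rfl⟩ : ∃ m, n = m + 1 := ⟨n - 1, by omega⟩
      simp only [Nat.add_sub_cancel]; ring
    have hua : u ≡ a [MOD p] := by
      have h1 : a + n + (n - 1) * u + u ≡ 0 + u [MOD p] :=
        ((Nat.modEq_zero_iff_dvd).2 hpv).add_right u
      have h2 : a + n * (1 + u) ≡ a + 0 [MOD p] :=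
        ((Nat.modEq_zero_iff_dvd).2 (Dvd.dvd.mul_right hpn _)).add_left a
      rw [h0] at h1
      simpa using h1.symm.trans h2
    by_cases hpa : p ∣ a
    · have h1 := (hmod2 p hp hpn hpa).symm.trans (hua.trans ((Nat.modEq_zero_iff_dvd).2 hpa))
      have h2 := (Nat.modEq_zero_iff_dvd).1 h1
      exact hp.one_lt.ne' (Nat.dvd_one.1 h2)
    · have h1 := (hmod1 p hp hpn hpa).symm.trans hua
      have h2 : a + a ≡ a + 0 [MOD p] := by simpa [two_mul] using h1
      have h3 := Nat.ModEq.add_left_cancel' a h2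
      exact hpa ((Nat.modEq_zero_iff_dvd).1 h3)
  · have h0 : u + n + (a + n + (n - 1) * u) = a + n * (2 + u) := by
      obtain ⟨m, rfl⟩ : ∃ m, n = m + 1 := ⟨n - 1, by omega⟩
      simp only [Nat.add_sub_cancel]; ring
    rw [h0]
    have h2 : a + n * (2 + u) ≡ a + 0 [MOD n] :=
      ((Nat.modEq_zero_iff_dvd).2 (Dvd.intro _ rfl)).add_left a
    simpa using h2

end Pool.Agent.Lib.MP_18d74f_co
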