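import Mathlib
import Pool.Agent.Lib.MP_18d74f_co.Mult
import Pool.Agent.Lib.MP_18d74f_co.Units

/-!
# The distinguishing number of a Schur partition of an abelian group
-/

set_option autoImplicit false

namespace Pool.Agent.Lib.MP_18d74f_co

open Finset

variable {G κ : Type} [CommGroup G] [Fintype G] [DecidableEq G] [DecidableEq κ] [Fintype κ]

lemma D_pow_le (χ : G → κ) (hχ : SP χ) (a : ℕ) (x : G) : D χ (x ^ a) ≤ 3 * D χ x := by
  have hn : Fintype.card G ≠ 0 := Fintype.card_ne_zero
  have even_case : ∀ b : ℕ, Even b → D χ (x ^ b) ≤ 2 * D χ x := by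
    intro b hb
    obtain ⟨u, v, hu, hv, hu0, hv0, huv⟩ := two_units (Fintype.card G) b hn hb
    have h1 : x ^ b = x ^ u * x ^ v := by
      rw [← pow_add]
      exact (pow_eq_pow_of_modEq huv pow_card_eq_one).symm
    rw [h1]
    refine (D_mul χ _ _).trans ?_
    rw [D_pow χ hχ u hu hu0, D_pow χ hχ v hv hv0]
    omega
  rcases Nat.even_or_odd a with ha | ha
  · exact (even_case a ha).trans (by omega)
  · obtain ⟨b, hb⟩ := ha
    rw [hb, pow_succ]
    refine (D_mul χ _ _).trans ?_
    have := even_case (2 * b) (even_two_mul b)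
    omega

/-- number of prime factors with multiplicity -/
def Om (n : ℕ) : ℕ := n.primeFactorsList.length

lemma Om_mul_le (a b : ℕ) (ha : a ≠ 0) (hb : 2 ≤ b) : Om a + 1 ≤ Om (a * b) := by
  unfold Om
  rw [(Nat.perm_primeFactorsList_mul ha (by omega)).length_eq, List.length_append]
  have : b.primeFactorsList ≠ [] := by
    intro h
    rcases (Nat.primeFactorsList_eq_nil b).1 h with h | h <;> omega
  have := List.length_pos_of_ne_nil this
  omega

lemma two_pow_Om (n : ℕ) (hn : n ≠ 0) : 2 ^ Om n ≤ n := by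
  unfold Om
  conv_rhs => rw [← Nat.prod_primeFactorsList hn]
  exact List.pow_card_le_prod _ _ fun p hp => (Nat.prime_of_mem_primeFactorsList hp).two_le

lemma Om_lt (H K : Subgroup G) (h : H < K) : Om (Nat.card H) + 1 ≤ Om (Nat.card K) := by
  obtain ⟨t, ht⟩ := Subgroup.card_dvd_of_le h.le
  rw [ht]
  have hH : Nat.card H ≠ 0 := Nat.card_pos.ne'
  have hK : Nat.card K ≠ 0 := Nat.card_pos.ne'
  refine Om_mul_le _ _ hH ?_
  by_contra hlt
  have ht1 : t = 0 ∨ t = 1 := by omega
  rcases ht1 with rfl | rfl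
  · rw [mul_zero] at ht; exact hK ht
  · rw [mul_one] at ht
    exact h.ne (Subgroup.eq_of_le_of_card_ge h.le ht.le)

lemma D_le (χ : G → κ) (hχ : SP χ) (d : ℕ) (T : Set G) (hT : ∀ x ∈ T, D χ x ≤ d)
    (hgen : Subgroup.closure T = ⊤) (y : G) : D χ y ≤ 3 * d * Om (Fintype.card G) := by
  classical
  let P : Subgroup G → Prop := fun H => ∀ z ∈ H, D χ z ≤ 3 * d * Om (Nat.card H)
  have hbot : P ⊥ := by
    intro z hz
    rw [Subgroup.mem_bot] at hz
    rw [hz, D_one]; exact Nat.zero_le _
  obtain ⟨H, hH, hmax⟩ := (Set.toFinite {H : Subgroup G | P H}).exists_maximal ⟨⊥, hbot⟩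
  have htop : H = ⊤ := by
    by_contra hne
    have : ∃ x ∈ T, x ∉ H := by
      by_contra hall
      push Not at hall
      apply hne
      rw [eq_top_iff, ← hgen, Subgroup.closure_le]
      exact hall
    obtain ⟨x, hx, hxH⟩ := this
    have hlt : H < H ⊔ Subgroup.zpowers x := by
      refine lt_of_le_of_ne le_sup_left fun h => hxH ?_
      rw [h]
      exact (le_sup_right : Subgroup.zpowers x ≤ _) (Subgroup.mem_zpowers x)
    have hP : P (H ⊔ Subgroup.zpowers x) := by
      intro z hz
      rw [Subgroup.mem_sup] at hz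
      obtain ⟨h, hh, w, hw, rfl⟩ := hz
      have hw' : w ∈ Submonoid.powers x := by
        rwa [mem_powers_iff_mem_zpowers]
      obtain ⟨a, rfl⟩ := hw'
      have h1 := hH h hh
      have h2 := D_pow_le χ hχ a x
      have h3 := hT x hx
      have h4 := Om_lt _ _ hlt
      calc D χ (h * x ^ a) ≤ D χ h + D χ (x ^ a) := D_mul χ _ _
        _ ≤ 3 * d * Om (Nat.card H) + 3 * d := by omega
        _ = 3 * d * (Om (Nat.card H) + 1) := by ring
        _ ≤ _ := Nat.mul_le_mul_left _ h4
    exact absurd (hmax hP hlt.le) (not_le_of_gt hlt)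
  have := hH y (by rw [htop]; trivial)
  rwa [htop, Subgroup.card_top, Nat.card_eq_fintype_card] at this

/-- some element is far away from `1` -/
lemma exists_far (χ : G → κ) (δ : ℝ)
    (hδ : ∀ h : G, ((univ.filter (fun g => χ g = χ h)).card : ℝ) ≤ δ * Fintype.card G) :
    ∃ x : G, (1 - δ) * Fintype.card G ≤ (D χ x : ℝ) := by
  by_contra hcon
  push Not at hcon
  have hsum : ∑ x : G, (D χ x : ℝ) < ∑ x : G, (1 - δ) * (Fintype.card G : ℝ) :=
    Finset.sum_lt_sum_of_nonempty ⟨1, mem_univ _⟩ fun x _ => hcon x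
  have h1 : ∑ x : G, D χ x = ∑ g : G, (univ.filter (fun h => χ g ≠ χ h)).card := by
    unfold D
    simp only [Finset.card_filter]
    rw [Finset.sum_comm]
    refine Finset.sum_congr rfl fun g _ => ?_
    exact Equiv.sum_comp (Equiv.mulLeft g) (fun h => if χ g ≠ χ h then 1 else 0)
  have h2 : ∀ g : G, (1 - δ) * (Fintype.card G : ℝ) ≤
      ((univ.filter (fun h => χ g ≠ χ h)).card : ℝ) := by
    intro g
    have h3 := Finset.card_filter_add_card_filter_not (s := (univ : Finset G)) (fun h => χ g = χ h)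
    have h4 := hδ g
    have h5 : univ.filter (fun h => χ h = χ g) = univ.filter (fun h => χ g = χ h) := by
      ext h; simp [eq_comm]
    rw [h5] at h4
    have h6 : ((univ.filter (fun h => χ g = χ h)).card : ℝ) +
        ((univ.filter (fun h => χ g ≠ χ h)).card : ℝ) = Fintype.card G := by
      have := h3
      simp only [Finset.card_univ] at this
      exact_mod_cast this
    linarith
  have h3 : (∑ x : G, (D χ x : ℝ)) = ∑ g : G, ((univ.filter (fun h => χ g ≠ χ h)).card : ℝ) := by
    exact_mod_cast h1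
  rw [h3] at hsum
  exact absurd (Finset.sum_le_sum fun g (_ : g ∈ (univ : Finset G)) => h2 g) (not_le_of_gt hsum)

/-- the main inequality for Schur partitions -/
theorem core (χ : G → κ) (hχ : SP χ) (δ : ℝ)
    (hδ : ∀ h : G, ((univ.filter (fun g => χ g = χ h)).card : ℝ) ≤ δ * Fintype.card G)
    (x : G) (hgen : Subgroup.closure {y : G | χ y = χ x} = ⊤) :
    (1 - δ) * Fintype.card G ≤ 3 * (Om (Fintype.card G) : ℝ) * D χ x := by
  obtain ⟨y, hy⟩ := exists_far χ δ hδ
  have h1 := D_le χ hχ (D χ x) {y : G | χ y = χ x} (fun z hz => (D_congr χ hχ z x hz).le) hgen y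
  have h2 : (D χ y : ℝ) ≤ 3 * (D χ x : ℝ) * (Om (Fintype.card G) : ℝ) := by exact_mod_cast h1
  linarith

end Pool.Agent.Lib.MP_18d74f_co
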