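import Mathlib

/-!
# Primitive coherent configurations
-/

set_option autoImplicit false

namespace Pool.Agent.Lib.MP_18d74f_co

open Finset

variable {V : Type} [Fintype V] {r : ℕ}

/-- `c` is a coherent configuration of rank `r` on `V`. -/
structure IsCoherent (c : V → V → Fin r) : Prop where
  /-- every colour is used -/
  surj : ∀ i, ∃ u v, c u v = i
  /-- (i) colours of diagonal pairs are never colours of off-diagonal pairs -/
  diag : ∀ u v w, c u u = c v w → v = w
  /-- (ii) `c u v` determines `c v u` -/
  symm : ∀ u v u' v', c u v = c u' v' → c v u = c v' u'
  /-- (iii) intersection numbers -/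
  inter : ∀ (i j : Fin r) (u v u' v' : V), c u v = c u' v' →
    (univ.filter (fun w => c u w = i ∧ c w v = j)).card =
      (univ.filter (fun w => c u' w = i ∧ c w v' = j)).card

/-- `c` is a primitive coherent configuration: homogeneous, and all off-diagonal constituents are
strongly connected. -/
structure IsPrimitive (c : V → V → Fin r) : Prop extends IsCoherent c where
  /-- all diagonal pairs have the same colour -/
  homog : ∀ u v, c u u = c v v
  /-- every off-diagonal constituent is strongly connected -/
  conn : ∀ i, (∀ u, c u u ≠ i) → ∀ u v, Relation.ReflTransGen (fun x y => c x y = i) u v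

/-- `σ` is an automorphism of `c`. -/
def IsAut (c : V → V → Fin r) (σ : Equiv.Perm V) : Prop := ∀ u v, c (σ u) (σ v) = c u v

end Pool.Agent.Lib.MP_18d74f_co
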