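import Mathlib
import Pool.Agent.Lib.MP_18d74f_co.Defs

/-!
# Multiscale averaging in homogeneous coherent configurations: basic facts
-/

set_option autoImplicit false
set_option linter.unusedSectionVars false

namespace Pool.Agent.Lib.MP_18d74f_co.MS

open Finset Classical

variable {V : Type} [Fintype V] {r : ℕ}

/-- a function of pairs of points that depends only on the colour of the pair -/
def Inv {α : Type} (c : V → V → Fin r) (F : V → V → α) : Prop :=
  ∀ u v u' v', c u v = c u' v' → F u v = F u' v'

lemma Inv.factor {α : Type} {c : V → V → Fin r} (hc : IsCoherent c) {F : V → V → α}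
    (hF : Inv c F) : ∃ f : Fin r → α, ∀ u v, F u v = f (c u v) := by
  choose a b hab using hc.surj
  exact ⟨fun j => F (a j) (b j), fun u v => hF _ _ _ _ (hab _).symm⟩

lemma Inv.transpose {α : Type} {c : V → V → Fin r} (hc : IsCoherent c) {F : V → V → α}
    (hF : Inv c F) : Inv c (fun u v => F v u) := by
  intro u v u' v' h
  exact hF _ _ _ _ (hc.symm _ _ _ _ h)

lemma Inv.mul {c : V → V → Fin r} (hc : IsCoherent c) {F G : V → V → ℝ}
    (hF : Inv c F) (hG : Inv c G) : Inv c (fun u v => ∑ x, F u x * G x v) := by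
  obtain ⟨f, hf⟩ := hF.factor hc
  obtain ⟨g, hg⟩ := hG.factor hc
  have key : ∀ u v, ∑ x, F u x * G x v = ∑ p : Fin r × Fin r,
      ((univ.filter (fun x => c u x = p.1 ∧ c x v = p.2)).card : ℝ) * (f p.1 * g p.2) := by
    intro u v
    rw [← Finset.sum_fiberwise (univ : Finset V) (fun x => (c u x, c x v))]
    refine Finset.sum_congr rfl fun p _ => ?_
    have h1 : (univ.filter (fun x => (c u x, c x v) = p)) =
        univ.filter (fun x => c u x = p.1 ∧ c x v = p.2) := by
      ext x; simp [Prod.ext_iff]
    rw [h1, ← nsmul_eq_mul]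
    refine Finset.sum_eq_card_nsmul fun x hx => ?_
    simp only [mem_filter, mem_univ, true_and] at hx
    rw [hf, hg, hx.1, hx.2]
  intro u v u' v' h
  simp only [key]
  refine Finset.sum_congr rfl fun p _ => ?_
  have := hc.inter p.1 p.2 u v u' v' h
  have e : (univ.filter (fun x => c u x = p.1 ∧ c x v = p.2)).card =
      (univ.filter (fun x => c u' x = p.1 ∧ c x v' = p.2)).card := this
  rw [e]

lemma Inv.comp {α β : Type} {c : V → V → Fin r} {F : V → V → α} (hF : Inv c F) (g : α → β) :
    Inv c (fun u v => g (F u v)) := by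
  intro u v u' v' h
  simp only [hF u v u' v' h]

lemma Inv.sum {ι : Type} (s : Finset ι) {c : V → V → Fin r} {F : ι → V → V → ℝ}
    (hF : ∀ i ∈ s, Inv c (F i)) : Inv c (fun u v => ∑ i ∈ s, F i u v) := by
  intro u v u' v' h
  exact Finset.sum_congr rfl fun i hi => hF i hi u v u' v' h

lemma inv_eq {c : V → V → Fin r} (hc : IsCoherent c) : Inv c (fun u v => u = v) := by
  intro u v u' v' h
  apply propext
  constructor
  · rintro rfl
    exact hc.diag _ _ _ h
  · rintro rfl
    exact hc.diag _ _ _ h.symm

/-- steps: equal, or an edge of colour `i` in one of the two directions -/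
def E (c : V → V → Fin r) (i : Fin r) (x y : V) : Prop := x = y ∨ c x y = i ∨ c y x = i

/-- `y` can be reached from `x` by at most `s` steps -/
def ball (c : V → V → Fin r) (i : Fin r) : ℕ → V → V → Prop
  | 0 => fun u v => u = v
  | s + 1 => fun u v => ∃ x, ball c i s u x ∧ E c i x v

lemma inv_E {c : V → V → Fin r} (hc : IsCoherent c) (i : Fin r) : Inv c (E c i) := by
  intro u v u' v' h
  have h2 := hc.symm _ _ _ _ h
  have h1 : (u = v) = (u' = v') := inv_eq hc u v u' v' h
  unfold E
  rw [h, h2, h1]

lemma inv_ball {c : V → V → Fin r} (hc : IsCoherent c) (i : Fin r) (s : ℕ) :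
    Inv c (ball c i s) := by
  induction s with
  | zero => exact inv_eq hc
  | succ s ih =>
    have h1 : Inv c (fun u v => if ball c i s u v then (1 : ℝ) else 0) :=
      ih.comp (fun p => if p then (1 : ℝ) else 0)
    have h2 : Inv c (fun u v => if E c i u v then (1 : ℝ) else 0) :=
      (inv_E hc i).comp (fun p => if p then (1 : ℝ) else 0)
    have h3 := Inv.mul hc h1 h2
    have h4 : ∀ u v, ball c i (s + 1) u v ↔
        0 < ∑ x, (if ball c i s u x then (1 : ℝ) else 0) * (if E c i x v then (1 : ℝ) else 0) := by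
      intro u v
      constructor
      · rintro ⟨x, hx, hxv⟩
        refine Finset.sum_pos' (fun y _ => ?_) ⟨x, mem_univ _, ?_⟩
        · split_ifs <;> simp
        · simp [hx, hxv]
      · intro h
        by_contra hne
        have : ∑ x, (if ball c i s u x then (1 : ℝ) else 0) * (if E c i x v then (1 : ℝ) else 0)
            = 0 := by
          refine Finset.sum_eq_zero fun x _ => ?_
          by_cases hx : ball c i s u x
          · have : ¬ E c i x v := fun hE => hne ⟨x, hx, hE⟩
            simp [this]
          · simp [hx]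
        rw [this] at h
        exact lt_irrefl _ h
    intro u v u' v' h
    apply propext
    rw [h4, h4]
    have := h3 u v u' v' h
    simp only at this
    rw [this]

lemma ball_self {c : V → V → Fin r} {i : Fin r} (s : ℕ) (u : V) : ball c i s u u := by
  induction s with
  | zero => rfl
  | succ s ih => exact ⟨u, ih, Or.inl rfl⟩

lemma ball_mono {c : V → V → Fin r} {i : Fin r} {s t : ℕ} (h : s ≤ t) {u v : V}
    (hb : ball c i s u v) : ball c i t u v := by
  induction h with
  | refl => exact hb
  | step _ ih => exact ⟨v, ih, Or.inl rfl⟩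

lemma E_symm {c : V → V → Fin r} {i : Fin r} {x y : V} (h : E c i x y) : E c i y x := by
  rcases h with h | h | h
  · exact Or.inl h.symm
  · exact Or.inr (Or.inr h)
  · exact Or.inr (Or.inl h)

lemma ball_prepend {c : V → V → Fin r} {i : Fin r} {u u' : V} (hE : E c i u' u) (s : ℕ) :
    ∀ v, ball c i s u v → ball c i (s + 1) u' v := by
  induction s with
  | zero =>
    intro v hv
    have hv' : u = v := hv
    exact ⟨u', rfl, hv' ▸ hE⟩
  | succ s ih =>
    rintro v ⟨x, hx, hxv⟩
    exact ⟨x, ih x hx, hxv⟩

/-- the ball as a finset -/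
noncomputable def Bf (c : V → V → Fin r) (i : Fin r) (s : ℕ) (u : V) : Finset V :=
  univ.filter (fun v => ball c i s u v)

lemma card_Bf_eq {c : V → V → Fin r} (hc : IsPrimitive c) (i : Fin r) (s : ℕ) (u v : V) :
    ((Bf c i s u).card : ℝ) = (Bf c i s v).card := by
  have h1 : Inv c (fun u v => if ball c i s u v then (1 : ℝ) else 0) :=
    (inv_ball hc.toIsCoherent i s).comp (fun p => if p then (1 : ℝ) else 0)
  have h2 : Inv c (fun _ _ : V => (1 : ℝ)) := fun _ _ _ _ _ => rfl
  have h3 := Inv.mul hc.toIsCoherent h1 h2 u u v v (hc.homog u v)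
  simp only [mul_one] at h3
  unfold Bf
  rw [Finset.card_filter, Finset.card_filter]
  push_cast
  exact h3

lemma exists_radius {c : V → V → Fin r} (hc : IsPrimitive c) (i : Fin r)
    (hi : ∀ u, c u u ≠ i) : ∃ S, ∀ s, S ≤ s → ∀ u v, ball c i s u v := by
  have h1 : ∀ p : V × V, ∃ s, ball c i s p.1 p.2 := by
    rintro ⟨u, v⟩
    have := hc.conn i hi u v
    induction this with
    | refl => exact ⟨0, rfl⟩
    | tail _ h ih =>
      obtain ⟨s, hs⟩ := ih
      exact ⟨s + 1, _, hs, Or.inr (Or.inl h)⟩
  choose g hg using h1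
  refine ⟨univ.sup g, fun s hs u v => ball_mono ((Finset.le_sup (mem_univ (u, v))).trans hs)
    (hg (u, v))⟩

/-- the number of points that distinguish `u` and `v` -/
noncomputable def Dc (c : V → V → Fin r) (u v : V) : ℕ :=
  (univ.filter (fun w => c w u ≠ c w v)).card

lemma Dc_comm (c : V → V → Fin r) (u v : V) : Dc c u v = Dc c v u := by
  unfold Dc
  congr 1
  ext w
  simp [ne_comm]

lemma inv_Dc {c : V → V → Fin r} (hc : IsCoherent c) : Inv c (Dc c) := by
  have h1 : ∀ l : Fin r, Inv c (fun u v => if c v u = l then (1 : ℝ) else 0) := by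
    intro l u v u' v' h
    simp only [hc.symm _ _ _ _ h]
  have h2 : ∀ l : Fin r, Inv c (fun u v => if c u v = l then (1 : ℝ) else 0) := by
    intro l u v u' v' h
    simp only [h]
  have h3 := Inv.sum (univ : Finset (Fin r)) (fun l _ => Inv.mul hc (h1 l) (h2 l))
  have h4 : ∀ u v, ∑ l, ∑ w, (if c w u = l then (1 : ℝ) else 0) * (if c w v = l then (1 : ℝ) else 0)
      = (Fintype.card V : ℝ) - Dc c u v := by
    intro u v
    rw [Finset.sum_comm]
    have e1 : ∀ w, ∑ l, (if c w u = l then (1 : ℝ) else 0) * (if c w v = l then (1 : ℝ) else 0)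
        = 1 - (if c w u ≠ c w v then (1 : ℝ) else 0) := by
      intro w
      simp only [ite_mul, one_mul, zero_mul, Finset.sum_ite_eq, mem_univ, if_true]
      by_cases h : c w u = c w v
      · simp [h]
      · simp [h, Ne.symm h]
    simp only [e1, Finset.sum_sub_distrib, Finset.sum_const, nsmul_eq_mul, mul_one, card_univ]
    congr 1
    unfold Dc
    rw [Finset.card_filter]
    push_cast
    rfl
  intro u v u' v' h
  have := h3 u v u' v' h
  simp only [h4] at this
  have h5 : (Dc c u v : ℝ) = Dc c u' v' := by linarith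
  exact_mod_cast h5

end Pool.Agent.Lib.MP_18d74f_co.MS
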