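import Mathlib
import Pool.Agent.Lib.MP_18d74f_co.MSBasic

/-!
# Multiscale averaging: one smoothing step
-/

set_option autoImplicit false
set_option linter.unusedSectionVars false

namespace Pool.Agent.Lib.MP_18d74f_co.MS

open Finset Classical

variable {V : Type} [Fintype V] {r : ℕ}

/-- a family of colour-determined functions `F l w u`, which for fixed `w`, `u` is a probability
distribution in `l` -/
structure Good (c : V → V → Fin r) (F : Fin r → V → V → ℝ) : Prop where
  inv : ∀ l, Inv c (F l)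
  nonneg : ∀ l w u, 0 ≤ F l w u
  sum_one : ∀ w u, ∑ l, F l w u = 1

/-- (twice the) total variation distance of `u` and `v`, summed over `w` -/
noncomputable def T (F : Fin r → V → V → ℝ) (u v : V) : ℝ := ∑ w, ∑ l, |F l w u - F l w v|

lemma T_nonneg (F : Fin r → V → V → ℝ) (u v : V) : 0 ≤ T F u v :=
  Finset.sum_nonneg fun _ _ => Finset.sum_nonneg fun _ _ => abs_nonneg _

lemma T_self (F : Fin r → V → V → ℝ) (u : V) : T F u u = 0 := by
  simp [T]

lemma T_comm (F : Fin r → V → V → ℝ) (u v : V) : T F u v = T F v u := by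
  unfold T
  refine Finset.sum_congr rfl fun w _ => Finset.sum_congr rfl fun l _ => abs_sub_comm _ _

lemma T_triangle (F : Fin r → V → V → ℝ) (u v w : V) : T F u w ≤ T F u v + T F v w := by
  unfold T
  rw [← Finset.sum_add_distrib]
  refine Finset.sum_le_sum fun x _ => ?_
  rw [← Finset.sum_add_distrib]
  refine Finset.sum_le_sum fun l _ => abs_sub_le _ _ _

lemma T_ball {c : V → V → Fin r} {i : Fin r} (F : Fin r → V → V → ℝ) (e : ℝ)
    (hE : ∀ x y, E c i x y → T F x y ≤ e) (u : V) (s : ℕ) :
    ∀ v, ball c i s u v → T F u v ≤ s * e := by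
  induction s with
  | zero =>
    intro v hv
    have hv' : u = v := hv
    rw [hv', T_self]; simp
  | succ s ih =>
    rintro v ⟨x, hx, hxv⟩
    refine (T_triangle F u x v).trans ?_
    have := ih x hx
    have := hE x v hxv
    push_cast
    linarith

/-- averaging over balls of radius `s` -/
noncomputable def sm (c : V → V → Fin r) (i : Fin r) (s : ℕ) (F : Fin r → V → V → ℝ) :
    Fin r → V → V → ℝ :=
  fun l w u => (∑ v ∈ Bf c i s u, F l w v) / (Bf c i s u).card

lemma card_Bf_pos (c : V → V → Fin r) (i : Fin r) (s : ℕ) (u : V) :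
    (0 : ℝ) < (Bf c i s u).card := by
  have : u ∈ Bf c i s u := by
    simp only [Bf, mem_filter, mem_univ, true_and]
    exact ball_self s u
  exact_mod_cast Finset.card_pos.2 ⟨u, this⟩

lemma good_sm {c : V → V → Fin r} (hc : IsPrimitive c) (i : Fin r) (s : ℕ)
    {F : Fin r → V → V → ℝ} (hF : Good c F) : Good c (sm c i s F) := by
  refine ⟨fun l => ?_, fun l w u => ?_, fun w u => ?_⟩
  · have h1 : Inv c (fun u v => if ball c i s v u then (1 : ℝ) else 0) :=
      Inv.transpose hc.toIsCoherent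
        ((inv_ball hc.toIsCoherent i s).comp (fun p => if p then (1 : ℝ) else 0))
    have h2 := Inv.mul hc.toIsCoherent (hF.inv l) h1
    intro u v u' v' h
    have h3 := h2 u v u' v' h
    unfold sm
    rw [card_Bf_eq hc i s v v']
    congr 1
    simp only [Bf, Finset.sum_filter]
    simpa only [mul_ite, mul_one, mul_zero] using h3
  · exact div_nonneg (Finset.sum_nonneg fun v _ => hF.nonneg l w v) (card_Bf_pos c i s u).le
  · unfold sm
    rw [← Finset.sum_div, Finset.sum_comm]
    simp only [hF.sum_one, Finset.sum_const, nsmul_eq_mul, mul_one]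
    exact div_self (card_Bf_pos c i s u).ne'

lemma l1_le_two {c : V → V → Fin r} {F : Fin r → V → V → ℝ} (hF : Good c F) (w u v : V) :
    ∑ l, |F l w u - F l w v| ≤ 2 := by
  calc ∑ l, |F l w u - F l w v| ≤ ∑ l, (F l w u + F l w v) := by
        refine Finset.sum_le_sum fun l _ => ?_
        rw [abs_le]
        have h1 := hF.nonneg l w u
        have h2 := hF.nonneg l w v
        constructor <;> linarith
    _ = 2 := by rw [Finset.sum_add_distrib, hF.sum_one, hF.sum_one]; norm_num

lemma Bf_subset {c : V → V → Fin r} {i : Fin r} (s : ℕ) {x y : V} (h : E c i x y) :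
    Bf c i s x ⊆ Bf c i (s + 1) y := by
  intro v hv
  simp only [Bf, mem_filter, mem_univ, true_and] at hv ⊢
  exact ball_prepend (E_symm h) s v hv

lemma card_sdiff_le {c : V → V → Fin r} (hc : IsPrimitive c) (i : Fin r) (s : ℕ) {x y : V}
    (h : E c i x y) (u : V) :
    ((Bf c i s x \ Bf c i s y).card : ℝ) ≤ (Bf c i (s + 1) u).card - (Bf c i s u).card := by
  have h1 : Bf c i s x \ Bf c i s y ⊆ Bf c i (s + 1) y \ Bf c i s y :=
    Finset.sdiff_subset_sdiff (Bf_subset s h) (Finset.Subset.refl _)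
  have h2 : Bf c i s y ⊆ Bf c i (s + 1) y := Bf_subset s (Or.inl rfl)
  have h3 := Finset.card_le_card h1
  have h4 := Finset.card_sdiff_add_card_eq_card h2
  have h5 : ((Bf c i (s + 1) y \ Bf c i s y).card : ℝ) + (Bf c i s y).card =
      (Bf c i (s + 1) y).card := by exact_mod_cast h4
  have h6 : ((Bf c i s x \ Bf c i s y).card : ℝ) ≤ ((Bf c i (s + 1) y \ Bf c i s y).card : ℝ) := by
    exact_mod_cast h3
  rw [card_Bf_eq hc i (s + 1) u y, card_Bf_eq hc i s u y]
  linarith

/-- the total variation distance of adjacent points after averaging -/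
lemma l1_sm_le {c : V → V → Fin r} (hc : IsPrimitive c) (i : Fin r) (s : ℕ)
    {F : Fin r → V → V → ℝ} (hF : Good c F) {x y : V} (h : E c i x y) (w u : V) :
    ∑ l, |sm c i s F l w x - sm c i s F l w y| ≤
      2 * (((Bf c i (s + 1) u).card - (Bf c i s u).card) / (Bf c i s u).card) := by
  have hb := card_Bf_pos c i s u
  have key : ∀ l, |sm c i s F l w x - sm c i s F l w y| ≤
      (∑ v ∈ Bf c i s x \ Bf c i s y, F l w v + ∑ v ∈ Bf c i s y \ Bf c i s x, F l w v) /
        (Bf c i s u).card := by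
    intro l
    unfold sm
    rw [card_Bf_eq hc i s x u, card_Bf_eq hc i s y u, ← sub_div, abs_div, abs_of_pos hb]
    refine div_le_div_of_nonneg_right ?_ hb.le
    have e1 : ∑ v ∈ Bf c i s x, F l w v =
        ∑ v ∈ Bf c i s x \ Bf c i s y, F l w v + ∑ v ∈ Bf c i s x ∩ Bf c i s y, F l w v := by
      rw [← Finset.sum_union (Finset.disjoint_sdiff_inter _ _), Finset.sdiff_union_inter]
    have e2 : ∑ v ∈ Bf c i s y, F l w v =
        ∑ v ∈ Bf c i s y \ Bf c i s x, F l w v + ∑ v ∈ Bf c i s x ∩ Bf c i s y, F l w v := by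
      rw [Finset.inter_comm, ← Finset.sum_union (Finset.disjoint_sdiff_inter _ _),
        Finset.sdiff_union_inter]
    rw [e1, e2]
    have p1 : 0 ≤ ∑ v ∈ Bf c i s x \ Bf c i s y, F l w v :=
      Finset.sum_nonneg fun v _ => hF.nonneg l w v
    have p2 : 0 ≤ ∑ v ∈ Bf c i s y \ Bf c i s x, F l w v :=
      Finset.sum_nonneg fun v _ => hF.nonneg l w v
    rw [abs_le]
    constructor <;> linarith
  refine (Finset.sum_le_sum fun l _ => key l).trans ?_
  rw [← Finset.sum_div, Finset.sum_add_distrib, Finset.sum_comm, Finset.sum_comm (s := univ)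
    (t := Bf c i s y \ Bf c i s x)]
  simp only [hF.sum_one, Finset.sum_const, nsmul_eq_mul, mul_one]
  rw [← mul_div_assoc]
  refine div_le_div_of_nonneg_right ?_ hb.le
  have h1 := card_sdiff_le hc i s h u
  have h2 := card_sdiff_le hc i s (E_symm h) u
  linarith

lemma min_le_log (k : ℝ) (hk : 0 ≤ k) : min k 1 ≤ 2 * Real.log (1 + k) := by
  have h1 : 1 - (1 + k)⁻¹ ≤ Real.log (1 + k) := Real.one_sub_inv_le_log_of_pos (by linarith)
  have h2 : 1 - (1 + k)⁻¹ = k / (1 + k) := by
    field_simp; ring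
  rw [h2] at h1
  rcases le_total k 1 with h | h
  · rw [min_eq_left h]
    have : k / 2 ≤ k / (1 + k) := div_le_div_of_nonneg_left hk (by linarith) (by linarith)
    linarith
  · rw [min_eq_right h]
    have : 1 / 2 ≤ k / (1 + k) := by
      rw [div_le_div_iff₀ (by norm_num) (by linarith)]; linarith
    linarith

/-- logarithm of the ball size -/
noncomputable def L (c : V → V → Fin r) (i : Fin r) (u : V) (s : ℕ) : ℝ :=
  Real.log (Bf c i s u).card

lemma T_sm_le {c : V → V → Fin r} (hc : IsPrimitive c) (i : Fin r) (s : ℕ)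
    {F : Fin r → V → V → ℝ} (hF : Good c F) {x y : V} (h : E c i x y) (u : V) :
    T (sm c i s F) x y ≤ Dc c x y * (4 * (L c i u (s + 1) - L c i u s)) := by
  have hb := card_Bf_pos c i s u
  have hb' := card_Bf_pos c i (s + 1) u
  set κ : ℝ := ((Bf c i (s + 1) u).card - (Bf c i s u).card) / (Bf c i s u).card with hκ
  have hκ0 : 0 ≤ κ := by
    refine div_nonneg ?_ hb.le
    have : Bf c i s u ⊆ Bf c i (s + 1) u := Bf_subset s (Or.inl rfl)
    have : ((Bf c i s u).card : ℝ) ≤ (Bf c i (s + 1) u).card := by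
      exact_mod_cast Finset.card_le_card this
    linarith
  have hlog : Real.log (1 + κ) = L c i u (s + 1) - L c i u s := by
    unfold L
    rw [← Real.log_div hb'.ne' hb.ne']
    congr 1
    rw [hκ]; field_simp; ring
  have hbound : ∀ w, ∑ l, |sm c i s F l w x - sm c i s F l w y| ≤
      if c w x ≠ c w y then 4 * (L c i u (s + 1) - L c i u s) else 0 := by
    intro w
    split_ifs with hw
    · have h1 := l1_sm_le hc i s hF h w u
      have h2 := l1_le_two (good_sm hc i s hF) w x y
      have h3 := min_le_log κ hκ0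
      rw [hlog] at h3
      rcases min_choice κ 1 with hm | hm <;> rw [hm] at h3 <;> linarith
    · push Not at hw
      refine le_of_eq (Finset.sum_eq_zero fun l _ => ?_)
      rw [(good_sm hc i s hF).inv l w x w y hw, sub_self, abs_zero]
  unfold T
  refine (Finset.sum_le_sum fun w _ => hbound w).trans ?_
  rw [← Finset.sum_filter, Finset.sum_const, nsmul_eq_mul]
  rfl

/-- the cost of averaging -/
lemma dev_sm_le {c : V → V → Fin r} (i : Fin r) (s : ℕ)
    (F : Fin r → V → V → ℝ) (e : ℝ) (hE : ∀ x y, E c i x y → T F x y ≤ e) (u : V) :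
    ∑ w, ∑ l, |sm c i s F l w u - F l w u| ≤ s * e := by
  have hb := card_Bf_pos c i s u
  have key : ∀ l w, |sm c i s F l w u - F l w u| ≤
      (∑ v ∈ Bf c i s u, |F l w u - F l w v|) / (Bf c i s u).card := by
    intro l w
    have e1 : sm c i s F l w u - F l w u =
        (∑ v ∈ Bf c i s u, (F l w v - F l w u)) / (Bf c i s u).card := by
      unfold sm
      rw [Finset.sum_sub_distrib, Finset.sum_const, nsmul_eq_mul]
      field_simp
    rw [e1, abs_div, abs_of_pos hb]
    refine div_le_div_of_nonneg_right ?_ hb.le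
    refine (Finset.abs_sum_le_sum_abs _ _).trans (Finset.sum_le_sum fun v _ => ?_)
    rw [abs_sub_comm]
  calc ∑ w, ∑ l, |sm c i s F l w u - F l w u|
      ≤ ∑ w, ∑ l, (∑ v ∈ Bf c i s u, |F l w u - F l w v|) / (Bf c i s u).card :=
        Finset.sum_le_sum fun w _ => Finset.sum_le_sum fun l _ => key l w
    _ = (∑ v ∈ Bf c i s u, T F u v) / (Bf c i s u).card := by
        simp_rw [← Finset.sum_div]
        congr 1
        unfold T
        rw [Finset.sum_comm (s := Bf c i s u)]
        refine Finset.sum_congr rfl fun w _ => ?_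
        rw [Finset.sum_comm]
    _ ≤ (∑ v ∈ Bf c i s u, (s * e : ℝ)) / (Bf c i s u).card := by
        refine div_le_div_of_nonneg_right ?_ hb.le
        refine Finset.sum_le_sum fun v hv => ?_
        simp only [Bf, mem_filter, mem_univ, true_and] at hv
        exact T_ball F e hE u s v hv
    _ = s * e := by
        rw [Finset.sum_const, nsmul_eq_mul]
        field_simp

/-- in every dyadic window there is a radius at which the balls grow slowly -/
lemma exists_flat (L : ℕ → ℝ) (k : ℕ) :
    ∃ s, 2 ^ k ≤ s ∧ s < 2 ^ (k + 1) ∧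
      L (s + 1) - L s ≤ (L (2 ^ (k + 1)) - L (2 ^ k)) / 2 ^ k := by
  by_contra hne
  push Not at hne
  have h1 : ∑ s ∈ Finset.Ico (2 ^ k) (2 ^ (k + 1)), (L (s + 1) - L s) =
      L (2 ^ (k + 1)) - L (2 ^ k) :=
    Finset.sum_Ico_sub L (Nat.pow_le_pow_right (by norm_num) (Nat.le_succ k))
  have hcard : (Finset.Ico (2 ^ k) (2 ^ (k + 1))).card = 2 ^ k := by
    rw [Nat.card_Ico, pow_succ]; omega
  have hne' : (Finset.Ico (2 ^ k) (2 ^ (k + 1))).Nonempty := by
    rw [← Finset.card_pos, hcard]; positivity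
  have h2 : ∑ s ∈ Finset.Ico (2 ^ k) (2 ^ (k + 1)), (L (2 ^ (k + 1)) - L (2 ^ k)) / 2 ^ k <
      ∑ s ∈ Finset.Ico (2 ^ k) (2 ^ (k + 1)), (L (s + 1) - L s) := by
    refine Finset.sum_lt_sum_of_nonempty hne' fun s hs => ?_
    rw [Finset.mem_Ico] at hs
    exact hne s hs.1 hs.2
  rw [h1, Finset.sum_const, hcard, nsmul_eq_mul] at h2
  have : ((2 ^ k : ℕ) : ℝ) * ((L (2 ^ (k + 1)) - L (2 ^ k)) / 2 ^ k) =
      L (2 ^ (k + 1)) - L (2 ^ k) := by
    push_cast
    field_simp
  linarith

end Pool.Agent.Lib.MP_18d74f_co.MS
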