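import Mathlib
import Pool.Agent.Lib.MP_18d74f_co.MSStep

/-!
# Multiscale averaging: the main bound
-/

set_option autoImplicit false
set_option linter.unusedSectionVars false

namespace Pool.Agent.Lib.MP_18d74f_co.MS

open Finset Classical

variable {V : Type} [Fintype V] {r : ℕ}

/-- the colour distribution without averaging -/
noncomputable def F0 (c : V → V → Fin r) : Fin r → V → V → ℝ :=
  fun l w u => if c w u = l then 1 else 0

lemma good_F0 (c : V → V → Fin r) : Good c (F0 c) := by
  refine ⟨fun l u v u' v' h => ?_, fun l w u => ?_, fun w u => ?_⟩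
  · simp only [F0, h]
  · unfold F0; split_ifs <;> norm_num
  · simp [F0]

lemma T_F0 (c : V → V → Fin r) (u v : V) : T (F0 c) u v = 2 * Dc c u v := by
  have h1 : ∀ w, ∑ l, |F0 c l w u - F0 c l w v| = if c w u ≠ c w v then (2 : ℝ) else 0 := by
    intro w
    split_ifs with h
    · have h2 : ∀ l, |F0 c l w u - F0 c l w v| = F0 c l w u + F0 c l w v := by
        intro l
        unfold F0
        by_cases h3 : c w u = l
        · have h4 : c w v ≠ l := fun h5 => h (h3.trans h5.symm)
          simp [h3, h4]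
        · by_cases h4 : c w v = l
          · simp [h3, h4]
          · simp [h3, h4]
      simp only [h2, Finset.sum_add_distrib, (good_F0 c).sum_one]
      norm_num
    · push Not at h
      refine Finset.sum_eq_zero fun l _ => ?_
      simp [F0, h]
  unfold T
  simp only [h1]
  rw [← Finset.sum_filter, Finset.sum_const, nsmul_eq_mul, mul_comm]
  rfl

/-- one window -/
lemma window {c : V → V → Fin r} (hc : IsPrimitive c) (i : Fin r) (d : ℕ)
    (hd : ∀ x y, E c i x y → Dc c x y ≤ d) (u0 : V) (k : ℕ)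
    {F : Fin r → V → V → ℝ} (hF : Good c F) (e : ℝ) (he : 0 ≤ e)
    (hE : ∀ x y, E c i x y → T F x y ≤ e) :
    ∃ F' : Fin r → V → V → ℝ, Good c F' ∧
      (∀ x y, E c i x y →
        T F' x y ≤ d * (4 * ((L c i u0 (2 ^ (k + 1)) - L c i u0 (2 ^ k)) / 2 ^ k))) ∧
      (∀ u, ∑ w, ∑ l, |F' l w u - F l w u| ≤ 2 ^ (k + 1) * e) ∧
      ((∀ u v, ball c i (2 ^ k) u v) → ∀ l w u v, F' l w u = F' l w v) := by
  obtain ⟨s, hs1, hs2, hs3⟩ := exists_flat (L c i u0) k
  refine ⟨sm c i s F, good_sm hc i s hF, fun x y hxy => ?_, fun u => ?_, fun hall l w u v => ?_⟩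
  · refine (T_sm_le hc i s hF hxy u0).trans ?_
    have h0 : 0 ≤ L c i u0 (s + 1) - L c i u0 s := by
      unfold L
      have hb := card_Bf_pos c i s u0
      have : Bf c i s u0 ⊆ Bf c i (s + 1) u0 := Bf_subset s (Or.inl rfl)
      have : ((Bf c i s u0).card : ℝ) ≤ (Bf c i (s + 1) u0).card := by
        exact_mod_cast Finset.card_le_card this
      have := Real.log_le_log hb this
      linarith
    have h1 : (Dc c x y : ℝ) ≤ d := by exact_mod_cast hd x y hxy
    calc (Dc c x y : ℝ) * (4 * (L c i u0 (s + 1) - L c i u0 s))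
        ≤ d * (4 * (L c i u0 (s + 1) - L c i u0 s)) :=
          mul_le_mul_of_nonneg_right h1 (by linarith)
      _ ≤ _ := by
          refine mul_le_mul_of_nonneg_left ?_ (Nat.cast_nonneg _)
          linarith
  · refine (dev_sm_le i s F e hE u).trans ?_
    refine mul_le_mul_of_nonneg_right ?_ he
    exact_mod_cast hs2.le
  · have h1 : ∀ u, Bf c i s u = univ := by
      intro u
      ext v
      simp only [Bf, mem_filter, mem_univ, true_and, iff_true]
      exact ball_mono hs1 (hall u v)
    unfold sm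
    rw [h1, h1]

lemma dev_triangle (F G H : Fin r → V → V → ℝ) (u : V) :
    ∑ w, ∑ l, |F l w u - H l w u| ≤ ∑ w, ∑ l, |F l w u - G l w u| + ∑ w, ∑ l, |G l w u - H l w u| := by
  rw [← Finset.sum_add_distrib]
  refine Finset.sum_le_sum fun x _ => ?_
  rw [← Finset.sum_add_distrib]
  exact Finset.sum_le_sum fun l _ => abs_sub_le _ _ _

lemma L_mono (c : V → V → Fin r) (i : Fin r) (u : V) {s t : ℕ} (h : s ≤ t) :
    L c i u s ≤ L c i u t := by
  unfold L
  have hb := card_Bf_pos c i s u
  have : Bf c i s u ⊆ Bf c i t u := by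
    intro v hv
    simp only [Bf, mem_filter, mem_univ, true_and] at hv ⊢
    exact ball_mono h hv
  have : ((Bf c i s u).card : ℝ) ≤ (Bf c i t u).card := by
    exact_mod_cast Finset.card_le_card this
  exact Real.log_le_log hb this

lemma L_nonneg (c : V → V → Fin r) (i : Fin r) (u : V) (s : ℕ) : 0 ≤ L c i u s := by
  unfold L
  refine Real.log_nonneg ?_
  have := card_Bf_pos c i s u
  have : 0 < (Bf c i s u).card := by exact_mod_cast this
  exact_mod_cast this

lemma L_le (c : V → V → Fin r) (i : Fin r) (u : V) (s : ℕ) :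
    L c i u s ≤ Real.log (Fintype.card V) := by
  unfold L
  refine Real.log_le_log (card_Bf_pos c i s u) ?_
  exact_mod_cast Finset.card_le_univ _

/-- all windows up to scale `2 ^ k` -/
lemma windows {c : V → V → Fin r} (hc : IsPrimitive c) (i : Fin r) (d : ℕ)
    (hd : ∀ x y, E c i x y → Dc c x y ≤ d) (u0 : V) (k : ℕ) :
    ∃ F : Fin r → V → V → ℝ, Good c F ∧
      (∀ x y, E c i x y →
        T F x y ≤ d * (4 * ((L c i u0 (2 ^ (k + 1)) - L c i u0 (2 ^ k)) / 2 ^ k))) ∧
      (∀ u, ∑ w, ∑ l, |F l w u - F0 c l w u| ≤ d * (4 + 16 * L c i u0 (2 ^ k))) ∧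
      ((∀ u v, ball c i (2 ^ k) u v) → ∀ l w u v, F l w u = F l w v) := by
  induction k with
  | zero =>
    obtain ⟨F, h1, h2, h3, h4⟩ := window hc i d hd u0 0 (good_F0 c) (2 * d) (by positivity)
      (fun x y hxy => by
        rw [T_F0]
        have := hd x y hxy
        have : (Dc c x y : ℝ) ≤ d := by exact_mod_cast this
        linarith)
    refine ⟨F, h1, h2, fun u => (h3 u).trans ?_, h4⟩
    have := mul_nonneg (Nat.cast_nonneg (α := ℝ) d) (L_nonneg c i u0 (2 ^ 0))
    have e : (2 : ℝ) ^ (0 + 1) * (2 * d) = d * 4 := by ring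
    rw [e]
    nlinarith
  | succ k ih =>
    obtain ⟨F, g1, g2, g3, -⟩ := ih
    have hg : 0 ≤ L c i u0 (2 ^ (k + 1)) - L c i u0 (2 ^ k) := by
      have := L_mono c i u0 (Nat.pow_le_pow_right (by norm_num : 0 < 2) (Nat.le_succ k))
      linarith
    obtain ⟨F', h1, h2, h3, h4⟩ := window hc i d hd u0 (k + 1) g1 _ (by positivity) g2
    refine ⟨F', h1, h2, fun u => ?_, h4⟩
    refine (dev_triangle F' F (F0 c) u).trans ?_
    have e : (2 : ℝ) ^ (k + 1 + 1) *
        (d * (4 * ((L c i u0 (2 ^ (k + 1)) - L c i u0 (2 ^ k)) / 2 ^ k))) =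
        16 * (d * (L c i u0 (2 ^ (k + 1)) - L c i u0 (2 ^ k))) := by
      rw [pow_succ, pow_succ]
      field_simp
      ring
    have h5 := h3 u
    have h6 := g3 u
    rw [e] at h5
    calc _ ≤ 16 * (d * (L c i u0 (2 ^ (k + 1)) - L c i u0 (2 ^ k))) +
          d * (4 + 16 * L c i u0 (2 ^ k)) := add_le_add h5 h6
      _ = _ := by ring

/-- **Main inequality.** If colour `i` is off-diagonal and each pair of colour `i` is distinguished
by at most `d` points, then any two points are distinguished by at most `(4 + 16 log n) d`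
points. -/
theorem Dc_le {c : V → V → Fin r} (hc : IsPrimitive c) (i : Fin r) (hi : ∀ u, c u u ≠ i) (d : ℕ)
    (hd : ∀ x y, c x y = i → Dc c x y ≤ d) (u v : V) :
    (Dc c u v : ℝ) ≤ d * (4 + 16 * Real.log (Fintype.card V)) := by
  obtain ⟨S, hS⟩ := exists_radius hc i hi
  have hd' : ∀ x y, E c i x y → Dc c x y ≤ d := by
    rintro x y (h | h | h)
    · rw [h]; simp [Dc]
    · exact hd x y h
    · rw [Dc_comm]; exact hd y x h
  obtain ⟨F, -, -, h3, h4⟩ := windows hc i d hd' u S
  have h5 := h4 (hS _ (Nat.lt_two_pow_self).le)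
  have h6 : T (F0 c) u v ≤ ∑ w, ∑ l, |F l w u - F0 c l w u| + ∑ w, ∑ l, |F l w v - F0 c l w v| := by
    unfold T
    rw [← Finset.sum_add_distrib]
    refine Finset.sum_le_sum fun w _ => ?_
    rw [← Finset.sum_add_distrib]
    refine Finset.sum_le_sum fun l _ => ?_
    rw [h5 l w u v]
    have := abs_sub_le (F0 c l w u) (F l w v) (F0 c l w v)
    rw [abs_sub_comm (F0 c l w u) (F l w v)] at this
    exact this
  rw [T_F0] at h6
  have h7 := h3 u
  have h8 := h3 v
  have h9 : (d : ℝ) * (4 + 16 * L c i u (2 ^ S)) ≤ d * (4 + 16 * Real.log (Fintype.card V)) := by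
    refine mul_le_mul_of_nonneg_left ?_ (Nat.cast_nonneg _)
    have := L_le c i u (2 ^ S)
    linarith
  linarith

/-- some pair is distinguished by at least `(1 - δ) n` points -/
lemma exists_far {c : V → V → Fin r} (hc : IsPrimitive c) (hn : 2 ≤ Fintype.card V) (δ : ℝ)
    (hδ : ∀ i : Fin r, (∀ u, c u u ≠ i) → ∀ u,
      ((univ.filter (fun w => c u w = i)).card : ℝ) ≤ δ * (Fintype.card V : ℝ)) :
    ∃ u v, (1 - δ) * (Fintype.card V : ℝ) ≤ Dc c u v := by
  have : Nontrivial V := Fintype.one_lt_card_iff_nontrivial.1 hn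
  obtain ⟨a, b, hab⟩ := exists_pair_ne V
  have h1 : 1 ≤ δ * (Fintype.card V : ℝ) := by
    refine le_trans ?_ (hδ (c a b) (fun u hu => hab (hc.diag _ _ _ hu)) a)
    have : b ∈ univ.filter (fun w => c a w = c a b) := by simp
    exact_mod_cast Finset.card_pos.2 ⟨b, this⟩
  have h2 : ∀ i u, ((univ.filter (fun w => c u w = i)).card : ℝ) ≤ δ * (Fintype.card V : ℝ) := by
    intro i u
    by_cases hi : ∀ x, c x x ≠ i
    · exact hδ i hi u
    · push Not at hi
      obtain ⟨x, hx⟩ := hi
      refine le_trans ?_ h1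
      have : univ.filter (fun w => c u w = i) ⊆ {u} := by
        intro w hw
        simp only [mem_filter, mem_univ, true_and] at hw
        rw [Finset.mem_singleton]
        exact (hc.diag x u w (hx.trans hw.symm)).symm
      exact_mod_cast Finset.card_le_card this
  by_contra hne
  push Not at hne
  have h3 : ∑ v, (Dc c a v : ℝ) = ∑ w, ((Fintype.card V : ℝ) -
      ((univ.filter (fun v => c w v = c w a)).card : ℝ)) := by
    unfold Dc
    simp only [Finset.card_filter]
    push_cast
    rw [Finset.sum_comm]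
    refine Finset.sum_congr rfl fun w _ => ?_
    rw [eq_sub_iff_add_eq, ← Finset.sum_add_distrib]
    have : ∀ x, ((if c w a ≠ c w x then (1 : ℝ) else 0) + if c w x = c w a then 1 else 0) = 1 := by
      intro x
      by_cases h : c w x = c w a
      · simp [h]
      · simp [h, Ne.symm h]
    simp only [this, Finset.sum_const, nsmul_eq_mul, mul_one, card_univ]
  have h4 : ∑ v, (Dc c a v : ℝ) < ∑ v : V, (1 - δ) * (Fintype.card V : ℝ) :=
    Finset.sum_lt_sum_of_nonempty ⟨a, mem_univ _⟩ fun v _ => hne a v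
  have h5 : ∑ v : V, (1 - δ) * (Fintype.card V : ℝ) ≤ ∑ w, ((Fintype.card V : ℝ) -
      ((univ.filter (fun v => c w v = c w a)).card : ℝ)) := by
    refine Finset.sum_le_sum fun w _ => ?_
    have := h2 (c w a) w
    linarith
  linarith

/-- the points moved by an automorphism distinguish `u` from its image -/
lemma Dc_le_support [DecidableEq V] {c : V → V → Fin r} (σ : Equiv.Perm V) (hσ : IsAut c σ) (u : V) :
    Dc c u (σ u) ≤ σ.support.card := by
  unfold Dc
  refine Finset.card_le_card fun w hw => ?_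
  simp only [mem_filter, mem_univ, true_and] at hw
  rw [Equiv.Perm.mem_support]
  intro h
  apply hw
  have := hσ w u
  rw [h] at this
  exact this.symm

/-- every automorphism other than the identity moves many points -/
theorem support_bound [DecidableEq V] {c : V → V → Fin r} (hc : IsPrimitive c) (hn : 2 ≤ Fintype.card V) (δ : ℝ)
    (hδ : ∀ i : Fin r, (∀ u, c u u ≠ i) → ∀ u,
      ((univ.filter (fun w => c u w = i)).card : ℝ) ≤ δ * (Fintype.card V : ℝ))
    (σ : Equiv.Perm V) (hσ : IsAut c σ) (hσ1 : σ ≠ 1) :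
    (1 - δ) * (Fintype.card V : ℝ) ≤
      (4 + 16 * Real.log (Fintype.card V)) * (σ.support.card : ℝ) := by
  obtain ⟨u, hu⟩ : ∃ u, σ u ≠ u := by
    by_contra hne
    push Not at hne
    exact hσ1 (Equiv.ext hne)
  obtain ⟨x, y, hxy⟩ := exists_far hc hn δ hδ
  have h1 : (Dc c x y : ℝ) ≤ Dc c u (σ u) * (4 + 16 * Real.log (Fintype.card V)) := by
    refine Dc_le hc (c u (σ u)) (fun w hw => hu (hc.diag _ _ _ hw).symm) (Dc c u (σ u))
      (fun a b hab => ?_) x y
    exact le_of_eq (inv_Dc hc.toIsCoherent a b u (σ u) hab)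
  have h2 : (Dc c u (σ u) : ℝ) ≤ σ.support.card := by
    exact_mod_cast Dc_le_support σ hσ u
  have h3 : 0 ≤ 4 + 16 * Real.log (Fintype.card V) := by
    have := Real.log_nonneg (x := (Fintype.card V : ℝ)) (by exact_mod_cast (by omega : 1 ≤ Fintype.card V))
    linarith
  calc _ ≤ (Dc c x y : ℝ) := hxy
    _ ≤ _ := h1
    _ ≤ (σ.support.card : ℝ) * (4 + 16 * Real.log (Fintype.card V)) :=
        mul_le_mul_of_nonneg_right h2 h3
    _ = _ := mul_comm _ _

end Pool.Agent.Lib.MP_18d74f_co.MS
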