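import Mathlib
import Pool.Agent.Lib.MP_18d74f_co.Core
import Pool.Agent.Lib.MP_18d74f_co.Defs

/-!
# Primitive coherent configurations with a transitive abelian group of automorphisms
-/

set_option autoImplicit false

namespace Pool.Agent.Lib.MP_18d74f_co

open Finset

variable {V : Type} [Fintype V] [DecidableEq V] {r : ℕ}

theorem motion_bound (c : V → V → Fin r) (hc : IsPrimitive c) (δ : ℝ)
    (hδ : ∀ u v, ((univ.filter (fun w => c u w = c u v)).card : ℝ) ≤ δ * Fintype.card V)
    (H : Subgroup (Equiv.Perm V)) (haut : ∀ h ∈ H, IsAut c h)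
    (hcomm : ∀ g ∈ H, ∀ h ∈ H, g * h = h * g) (htrans : ∀ u v, ∃ h ∈ H, h u = v)
    (σ : Equiv.Perm V) (hσ : IsAut c σ) (hσ1 : σ ≠ 1) :
    (1 - δ) * Fintype.card V ≤ 3 * (Om (Fintype.card V) : ℝ) * σ.support.card := by
  classical
  let _ : CommGroup H :=
    { (inferInstance : Group H) with
      mul_comm := fun a b => Subtype.ext (hcomm a.1 a.2 b.1 b.2) }
  let _ : Fintype H := Fintype.ofFinite H
  -- a moved point
  obtain ⟨v₁, hv₁⟩ : ∃ v, σ v ≠ v := by
    by_contra h
    push Not at h
    exact hσ1 (Equiv.ext h)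
  set v₀ := v₁ with hv₀
  -- the bijection `H → V`
  have hinj : Function.Injective (fun h : H => h.1 v₀) := by
    intro g h hgh
    apply Subtype.ext
    ext v
    obtain ⟨k, hk, rfl⟩ := htrans v₀ v
    have h1 : g.1 (k v₀) = k (g.1 v₀) := by
      have := hcomm g.1 g.2 k hk
      exact congrFun (congrArg DFunLike.coe this) v₀
    have h2 : h.1 (k v₀) = k (h.1 v₀) := by
      have := hcomm h.1 h.2 k hk
      exact congrFun (congrArg DFunLike.coe this) v₀
    rw [h1, h2]
    exact congrArg k hgh
  have hsurj : Function.Surjective (fun h : H => h.1 v₀) := by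
    intro v
    obtain ⟨k, hk, hkv⟩ := htrans v₀ v
    exact ⟨⟨k, hk⟩, hkv⟩
  set e : H ≃ V := Equiv.ofBijective _ ⟨hinj, hsurj⟩ with he
  have he' : ∀ h : H, e h = h.1 v₀ := fun h => rfl
  have hcard : Fintype.card H = Fintype.card V := Fintype.card_congr e
  set χ : H → Fin r := fun h => c v₀ (h.1 v₀) with hχdef
  have hcχ : ∀ g h : H, c (g.1 v₀) (h.1 v₀) = χ (g⁻¹ * h) := by
    intro g h
    have h1 := haut (g⁻¹ : H).1 (g⁻¹ : H).2 (g.1 v₀) (h.1 v₀)
    rw [← h1]
    simp [hχdef]
  have hcount : ∀ (p : V → Prop) [DecidablePred p],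
      (univ.filter (fun w => p w)).card = (univ.filter (fun h : H => p (h.1 v₀))).card := by
    intro p _
    symm
    refine Finset.card_bij (fun h _ => e h) ?_ ?_ ?_
    · intro h hh; simpa [he'] using hh
    · intro g _ h _ hgh; exact e.injective hgh
    · intro w hw
      refine ⟨e.symm w, ?_, by simp⟩
      simp only [mem_filter, mem_univ, true_and] at hw ⊢
      rw [← he', e.apply_symm_apply]; exact hw
  have hSP : SP χ := by
    constructor
    · intro x y hxy
      have h1 := hc.symm _ _ _ _ hxy
      have h2 : ∀ z : H, c (z.1 v₀) v₀ = χ z⁻¹ := by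
        intro z
        have := hcχ z 1
        simpa using this
      rw [← h2, ← h2]; exact h1
    · intro a b x y hxy
      have h1 := hc.inter a b v₀ (x.1 v₀) v₀ (y.1 v₀) hxy
      rw [hcount, hcount] at h1
      simp only [hcχ] at h1
      exact h1
  have hδ' : ∀ h : H, ((univ.filter (fun g => χ g = χ h)).card : ℝ) ≤ δ * Fintype.card H := by
    intro h
    have h1 := hδ v₀ (h.1 v₀)
    rw [hcount, ← hcard] at h1
    exact h1
  set x : H := e.symm (σ v₀) with hx
  have hxv : x.1 v₀ = σ v₀ := by rw [← he', hx, e.apply_symm_apply]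
  have hgen : Subgroup.closure {y : H | χ y = χ x} = ⊤ := by
    rw [eq_top_iff]
    intro h _
    have hoff : ∀ u, c u u ≠ χ x := by
      intro u hu
      have := hc.diag _ _ _ hu
      exact hv₁ (by rw [← hxv]; exact this.symm)
    have hpath := hc.conn (χ x) hoff v₀ (h.1 v₀)
    have key : ∀ w, Relation.ReflTransGen (fun x' y' => c x' y' = χ x) v₀ w →
        ∀ g : H, g.1 v₀ = w → g ∈ Subgroup.closure {y : H | χ y = χ x} := by
      intro w hw
      induction hw with
      | refl =>
        intro g hg
        have : g = 1 := hinj (by simpa using hg)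
        rw [this]; exact Subgroup.one_mem _
      | @tail a b _ hstep ih =>
        intro g hg
        obtain ⟨k, hk⟩ := hsurj a
        have h1 := ih k hk
        have h2 : χ (k⁻¹ * g) = χ x := by
          rw [← hcχ, hg]
          have hk' : k.1 v₀ = a := hk
          rw [hk']; exact hstep
        have h3 : g = k * (k⁻¹ * g) := by group
        rw [h3]
        exact Subgroup.mul_mem _ h1 (Subgroup.subset_closure h2)
    exact key _ hpath h rfl
  have hcore := core χ hSP δ hδ' x hgen
  have hD : D χ x ≤ σ.support.card := by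
    have h1 : D χ x = (univ.filter (fun w => c w v₀ ≠ c w (σ v₀))).card := by
      rw [hcount]
      unfold D
      refine Finset.card_bij (fun g _ => g⁻¹) ?_ ?_ ?_
      · intro g hg
        simp only [mem_filter, mem_univ, true_and] at hg ⊢
        have h2 := hcχ g⁻¹ 1
        have h3 := hcχ g⁻¹ x
        rw [inv_inv, mul_one] at h2
        rw [inv_inv] at h3
        have h4 : ((1 : H) : Equiv.Perm V) v₀ = v₀ := rfl
        rw [h4] at h2
        rw [hxv] at h3
        rw [h2, h3]; exact hg
      · intro g _ h _ hgh; simpa using hgh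
      · intro g hg
        refine ⟨g⁻¹, ?_, by simp⟩
        simp only [mem_filter, mem_univ, true_and] at hg ⊢
        have h2 := hcχ g 1
        have h3 := hcχ g x
        rw [mul_one] at h2
        have h4 : ((1 : H) : Equiv.Perm V) v₀ = v₀ := rfl
        rw [h4] at h2
        rw [hxv] at h3
        rw [← h2, ← h3]; exact hg
    rw [h1]
    refine Finset.card_le_card ?_
    intro w hw
    simp only [mem_filter, mem_univ, true_and] at hw
    rw [Equiv.Perm.mem_support]
    intro hw'
    apply hw
    have := hσ w v₀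
    rw [hw'] at this
    exact this.symm
  rw [hcard] at hcore
  refine hcore.trans ?_
  have : (D χ x : ℝ) ≤ (σ.support.card : ℝ) := by exact_mod_cast hD
  gcongr

/-- at least one colour class from a point has at least one element, so `1 ≤ δ n` -/
lemma one_le (c : V → V → Fin r) (hc : IsPrimitive c) (δ : ℝ) (hn : 2 ≤ Fintype.card V)
    (hδ : ∀ i, (∀ u, c u u ≠ i) → ∀ u,
      ((univ.filter (fun w => c u w = i)).card : ℝ) ≤ δ * Fintype.card V) :
    1 ≤ δ * Fintype.card V := by
  obtain ⟨u, v, huv⟩ := Fintype.exists_pair_of_one_lt_card (by omega : 1 < Fintype.card V)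
  have h1 := hδ (c u v) (fun w hw => huv (hc.diag _ _ _ hw)) u
  refine le_trans ?_ h1
  have : 0 < (univ.filter (fun w => c u w = c u v)).card :=
    Finset.card_pos.2 ⟨v, by simp⟩
  exact_mod_cast this

theorem main (c : V → V → Fin r) (hc : IsPrimitive c) (hn : 2 ≤ Fintype.card V) (δ : ℝ)
    (hδ : ∀ i, (∀ u, c u u ≠ i) → ∀ u,
      ((univ.filter (fun w => c u w = i)).card : ℝ) ≤ δ * Fintype.card V)
    (H : Subgroup (Equiv.Perm V)) (haut : ∀ h ∈ H, IsAut c h)
    (hcomm : ∀ g ∈ H, ∀ h ∈ H, g * h = h * g) (htrans : ∀ u v, ∃ h ∈ H, h u = v)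
    (σ : Equiv.Perm V) (hσ : IsAut c σ) (hσ1 : σ ≠ 1) :
    (1 - δ) * Fintype.card V ≤ 3 * (Om (Fintype.card V) : ℝ) * σ.support.card ∧
    (1 - δ) * (Real.log 2 / 3) * (Fintype.card V / Real.log (Fintype.card V)) ≤
      σ.support.card := by
  have h1 := one_le c hc δ hn hδ
  have hδ' : ∀ u v, ((univ.filter (fun w => c u w = c u v)).card : ℝ) ≤ δ * Fintype.card V := by
    intro u v
    by_cases huv : u = v
    · subst huv
      have : univ.filter (fun w => c u w = c u u) = {u} := by
        ext w
        simp only [mem_filter, mem_univ, true_and, mem_singleton]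
        constructor
        · intro h; exact (hc.diag _ _ _ h.symm).symm
        · rintro rfl; rfl
      rw [this, Finset.card_singleton]
      exact_mod_cast h1
    · exact hδ _ (fun w hw => huv (hc.diag _ _ _ hw)) u
  have h2 := motion_bound c hc δ hδ' H haut hcomm htrans σ hσ hσ1
  refine ⟨h2, ?_⟩
  have hn0 : Fintype.card V ≠ 0 := by omega
  have h3 : (2 : ℝ) ^ Om (Fintype.card V) ≤ Fintype.card V := by
    exact_mod_cast two_pow_Om _ hn0
  have hlog : 0 < Real.log (Fintype.card V) := Real.log_pos (by exact_mod_cast (by omega : 1 < Fintype.card V))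
  have h4 : (Om (Fintype.card V) : ℝ) * Real.log 2 ≤ Real.log (Fintype.card V) := by
    have := Real.log_le_log (by positivity) h3
    rwa [Real.log_pow] at this
  rw [mul_div_assoc', div_le_iff₀ hlog]
  have hS : (0 : ℝ) ≤ σ.support.card := by positivity
  have hl2 : 0 < Real.log 2 := Real.log_pos (by norm_num)
  calc (1 - δ) * (Real.log 2 / 3) * Fintype.card V
      = (Real.log 2 / 3) * ((1 - δ) * Fintype.card V) := by ring
    _ ≤ (Real.log 2 / 3) * (3 * (Om (Fintype.card V) : ℝ) * σ.support.card) := by gcongr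
    _ = σ.support.card * ((Om (Fintype.card V) : ℝ) * Real.log 2) := by ring
    _ ≤ σ.support.card * Real.log (Fintype.card V) := by gcongr

end Pool.Agent.Lib.MP_18d74f_co
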